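import Pool.Agent.Helper30.CIR.Final

/-!
# MP_f32c9c_an: diffeomorphisms with a circle symmetry do not have robustly vanishing central exponents

Let `1 ≤ r ≤ s ≤ ∞`, `M` a closed submanifold of `ℝ^K` with a smooth volume `m`, `f` a strongly partially
hyperbolic `C^s` diffeomorphism of `M` (no invariant measure is assumed) which commutes with a `C^s` flow `A`.
Let `L` be a compact subset of `M` such that the means `(1/n) ∑_{k<n} m (f^{-k} L)` do not tend to `0`, and suppose that every
`x ∈ L` either is not a fixed point of `A`, `A` being an action of the circle, or turns: some `C^s` eigenfunction of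
positive frequency of `A` does not vanish at `x`.  Then every `C^r`-neighbourhood of `f` contains a strongly partially
hyperbolic `C^s` diffeomorphism `g` with splitting as close as we like to that of `f`, such that on a set of
positive volume some central vector has a negative lower exponent, and such that, if some probability measure has a basin of
full volume for `g`, almost every point has a central vector with upper exponent below a negative constant.
-/

set_option autoImplicit false

open Set Filter Topology MeasureTheory

open scoped ContDiff

namespace Pool.Agent.Results.MP_f32c9c_an.CircleSymmetry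

open Pool.Agent.Helper56.RZ Pool.Agent.Helper30.CIR

theorem result (N K r : ℕ) (s : WithTop ℕ∞) (M : Set (E K)) (m : Measure (E K))
    (f f' : E K → E K) (P : Fin 3 → E K → End K) (A : ℝ → E K → E K) (L : Set (E K))
    (hr : 1 ≤ r) (hrs : (r : WithTop ℕ∞) ≤ s) (hs : s ≤ ∞) (hM : ClosedManifold N K M m)
    (hf : IsDiffeo s M f f') (hP : PartHyp M f f' P) (hA : Flow s M A) (hfA : Commutes M f A)
    (hL : IsCompact L) (hLM : L ⊆ M) (hH : Heavy M m f L)
    (hLA : ∀ x ∈ L, (Periodic M A ∧ Moved A x) ∨ Turns s M A x) :
    ∀ (ι : Type) [Finite ι] (c : ι → Chart N K M) (L : ι → Set (E N)),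
      (∀ i, IsCompact (L i) ∧ L i ⊆ (c i).V) → ∀ ε > 0,
      ∃ (g g' : E K → E K) (Q : Fin 3 → E K → End K),
        IsDiffeo s M g g' ∧ PartHyp M g g' Q ∧ CrClose r ε c L f g ∧ SplClose M ε P Q ∧
        Negative M m g Q :=
  final N K r s M m f f' P A L hr hrs hs hM hf hP hA hfA hL hLM hH hLA

end Pool.Agent.Results.MP_f32c9c_an.CircleSymmetry
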