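import Pool.Agent.Helper30.RZ.Fin5C

/-!
# MP_f32c9c_an : volume preserving diffeomorphisms with one-dimensional strong bundles, `C^4` perturbations

Let `f` be a volume preserving strongly partially hyperbolic `C^s` diffeomorphism of a closed manifold `M`,
`2 ≤ r ≤ s ≤ ∞`, and suppose that `M` has dimension three, or that the stable and the unstable bundle of `f` are
one-dimensional (the central bundle may have any dimension).  Suppose moreover that `r ≤ 4`, or that
the splitting is `α`-Hölder with `α > (r - 4) / (r - 1)`.  Then `f` can be approximated in the `C^r`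
topology by volume preserving `C^s` diffeomorphisms `g` whose central Lyapunov exponents do not all
vanish almost everywhere.

(For `r = 2` this is contained in `StrongSumOrHolder`, which for one-dimensional strong bundles and `r ≥ 3` needs
an exponent `α > (r - 2) / r`.)
-/

set_option autoImplicit false

open Set Filter Topology MeasureTheory

open scoped ContDiff

namespace Pool.Agent.Results.MP_f32c9c_an.OneDimStrongBundles

open Pool.Agent.Helper56.RZ

theorem result : ∀ (N K r : ℕ) (s : WithTop ℕ∞) (M : Set (E K)) (m : Measure (E K))
    (f f' : E K → E K) (P : Fin 3 → E K → End K), 2 ≤ r → (r : WithTop ℕ∞) ≤ s → s ≤ ∞ →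
    ConsPH N K s M m f f' P → (N = 3 ∨ OneDimStrong M P) →
    (r ≤ 4 ∨ ∃ α : ℝ, α ≤ 1 ∧ ((r : ℝ) - 1) * (1 - α) < 3 ∧ HolderOn M P α) →
    Approximable (N := N) r s M m f P (fun g g' Q => ¬ AllZero M m g g' Q) :=
  Pool.Agent.Helper30.RZ.finB5

end Pool.Agent.Results.MP_f32c9c_an.OneDimStrongBundles
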