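import Pool.Agent.Helper56.RZ.FinZ3

/-!
# MP_f32c9c_an : volume preserving diffeomorphisms, `C^2` perturbations (and `C^r` if the strong bundles are large or the splitting is Hölder)

Let `f` be a volume preserving strongly partially hyperbolic `C^s` diffeomorphism, `2 ≤ r ≤ s ≤ ∞`, and suppose that `r =
2`, or that at some point `x` the sum `d` of the dimensions of `E^s`, `E^u` is at least `2r - 2`, or that the splitting is
`α`-Hölder near `x` with `α > (2r - 2 - d) / (2r)`.  Then `f` can be approximated in the `C^r`
topology by volume preserving `C^s` diffeomorphisms `g` whose central Lyapunov exponents do not all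
vanish almost everywhere: even the integral of `log |det (Dg | E^c)|` is different from `0`.
-/

set_option autoImplicit false

open Set Filter Topology MeasureTheory

open scoped ContDiff

namespace Pool.Agent.Results.MP_f32c9c_an.StrongSumOrHolder

open Pool.Agent.Helper56.RZ

theorem result : ∀ (N K r : ℕ) (s : WithTop ℕ∞) (M : Set (E K)) (m : Measure (E K))
    (f f' : E K → E K) (P : Fin 3 → E K → End K) (x : E K), 2 ≤ r → (r : WithTop ℕ∞) ≤ s → s ≤ ∞ →
    ConsPH N K s M m f f' P → x ∈ M → (r = 2 ∨ 2 * r - 2 ≤ strongSum P x ∨ ∃ α : ℝ, α ≤ 1 ∧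
      (2 * (r : ℝ) - 2 - strongSum P x) / (2 * r) < α ∧ HolderNear M P x α) →
    Approximable (N := N) r s M m f P
      (fun g g' Q => centralIntegral M m g Q ≠ 0 ∧ ¬ AllZero M m g g' Q) :=
  finalS4

end Pool.Agent.Results.MP_f32c9c_an.StrongSumOrHolder
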