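import Pool.Agent.Helper56.TOF.Fin2

/-!
# MP_f32c9c_an : time-one maps of flows

Let `A` be a `C^s` flow on a closed manifold `M`, `1 ≤ r ≤ s ≤ ∞`, such that `f = A 1` is strongly partially
hyperbolic and some probability measure `μ` has a basin of full volume.  Then every `C^r`-neighbourhood of `f`
contains a strongly partially hyperbolic `C^s` diffeomorphism with negative central exponents: `f` is not an example
for Q1.

Proof: `g = A 1 ∘ h`, `h x = A (u x) x`; on a flow line `h` is the lift of a Moebius map of high frequency `q` (conjugated
in a flow box), so the phases of successive passes through the box are holomorphic functions of a speed parameter,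
and the mean of the logarithm of the derivative is negative.  The support of `μ` contains a point that is not on a
short closed orbit, because otherwise orbits would separate more slowly than volume expands in the unstable direction.
-/

set_option autoImplicit false

open Set Filter Topology MeasureTheory

open scoped ContDiff

namespace Pool.Agent.Results.MP_f32c9c_an.TimeOneMaps

open Pool.Agent.Helper56.RZ Pool.Agent.Helper30.CIR

theorem result : ∀ (N K r : ℕ) (s : WithTop ℕ∞) (M : Set (E K)) (m μ : Measure (E K))
    (A : ℝ → E K → E K) (P : Fin 3 → E K → End K), 1 ≤ r → (r : WithTop ℕ∞) ≤ s → s ≤ ∞ →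
    ClosedManifold N K M m → Flow s M A → PartHyp M (A 1) (A (-1)) P → FullBasin M m (A 1) μ →
    Destroyed (N := N) r s M m (A 1) P :=
  Pool.Agent.Helper56.TOF.tof1

end Pool.Agent.Results.MP_f32c9c_an.TimeOneMaps
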